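import Pool.Agent.H94.C1.Targets

/-! FLX: energy and Hardy's inequality on the hyperboloid. -/

set_option autoImplicit false

namespace Pool.Agent.H79.C1

open MeasureTheory Set FourierTransform Pool.Agent.H82.KL Pool.Agent.H94.C1
open scoped ENNReal NNReal SchwartzMap

theorem fatou {α : Type*} [MeasurableSpace α] {μ : Measure α} {f : ℕ → α → ℝ≥0∞} {g : α → ℝ≥0∞}
    {C : ℝ≥0∞} (hf : ∀ n, Measurable (f n))
    (hlim : ∀ x, Filter.Tendsto (fun n => f n x) Filter.atTop (nhds (g x)))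
    (hC : ∀ n, ∫⁻ x, f n x ∂μ ≤ C) : ∫⁻ x, g x ∂μ ≤ C := by
  have h1 : ∀ x, g x = Filter.liminf (fun n => f n x) Filter.atTop :=
    fun x => (hlim x).liminf_eq.symm
  calc ∫⁻ x, g x ∂μ = ∫⁻ x, Filter.liminf (fun n => f n x) Filter.atTop ∂μ := by
        simp only [h1]
    _ ≤ Filter.liminf (fun n => ∫⁻ x, f n x ∂μ) Filter.atTop := lintegral_liminf_le hf
    _ ≤ C := Filter.liminf_le_of_frequently_le'
        (Filter.Eventually.frequently (Filter.Eventually.of_forall hC))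

/-- the derivative of a wave on a graph -/
theorem onG_deriv (hD : T_DIF) {d : ℕ} {b : EE d → ℂ} (hb : Sym b) {φ : EE d → ℝ}
    (hφ : ContDiff ℝ 1 φ) :
    ContDiff ℝ 1 (onG b φ) ∧ ∀ x v : EE d, fderiv ℝ (onG b φ) x v =
      2 * (Real.pi : ℂ) * Complex.I * (∑ j, ((v j : ℝ) : ℂ) * U (mc j b) (x, φ x) +
        ((fderiv ℝ φ x v : ℝ) : ℂ) * U (mn b) (x, φ x)) := by
  obtain ⟨h1, h2⟩ := hD d b hb
  have hg : ContDiff ℝ 1 (fun x : EE d => (x, φ x)) := contDiff_id.prodMk hφ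
  have he : onG b φ = (U b) ∘ (fun x : EE d => (x, φ x)) := rfl
  refine ⟨by rw [he]; exact h1.comp hg, fun x v => ?_⟩
  have hφx : HasFDerivAt φ (fderiv ℝ φ x) x :=
    ((hφ.differentiable (by norm_num)) x).hasFDerivAt
  have hgx : HasFDerivAt (fun x : EE d => (x, φ x))
      ((ContinuousLinearMap.id ℝ (EE d)).prod (fderiv ℝ φ x)) x :=
    (hasFDerivAt_id x).prodMk hφx
  have hU : HasFDerivAt (U b) (fderiv ℝ (U b) (x, φ x)) (x, φ x) :=
    ((h1.differentiable (by norm_num)) _).hasFDerivAt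
  have hc := hU.comp x hgx
  rw [he, hc.fderiv]
  simp only [ContinuousLinearMap.comp_apply, ContinuousLinearMap.prod_apply,
    ContinuousLinearMap.id_apply]
  rw [h2]

theorem abs_coord_le {d : ℕ} (v : EE d) (j : Fin d) : |v j| ≤ ‖v‖ := by
  rw [← Real.norm_eq_abs]
  exact PiLp.norm_apply_le v j


theorem coord_sum {d : ℕ} (F : Fin d → ℂ) (j : Fin d) :
    ∑ i, (((ei j : EE d) i : ℝ) : ℂ) * F i = F j := by
  rw [Finset.sum_eq_single j]
  · simp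
  · intro i _ hij
    simp [hij]
  · intro h
    exact absurd (Finset.mem_univ j) h

theorem onG_deriv_ei (hD : T_DIF) {d : ℕ} {b : EE d → ℂ} (hb : Sym b) {φ : EE d → ℝ}
    (hφ : ContDiff ℝ 1 φ) (x : EE d) (j : Fin d) : fderiv ℝ (onG b φ) x (ei j) =
      2 * (Real.pi : ℂ) * Complex.I * (U (mc j b) (x, φ x) +
        ((fderiv ℝ φ x (ei j) : ℝ) : ℂ) * U (mn b) (x, φ x)) := by
  rw [(onG_deriv hD hb hφ).2 x (ei j), coord_sum (fun i => U (mc i b) (x, φ x)) j]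

theorem onG_deriv_bound (hS : T_SYM) (hD : T_DIF) (hC : T_DEC) {d : ℕ} (hd : 1 ≤ d)
    {b : EE d → ℂ} (hb : Sym b) {φ : EE d → ℝ} (hφ : ContDiff ℝ 1 φ) {B : ℝ}
    (hB : ∀ x, |φ x| ≤ B) (hL : ∀ x, ‖fderiv ℝ φ x‖ ≤ 1) (N : ℕ) :
    ∃ C : ℝ, (∀ x, ‖onG b φ x‖ ≤ C * ((1 + ‖x‖) ^ N)⁻¹) ∧
      ∀ x, ‖fderiv ℝ (onG b φ) x‖ ≤ C * ((1 + ‖x‖) ^ N)⁻¹ := by
  obtain ⟨s1, s2, -⟩ := hS d b hb
  obtain ⟨C0, hC0, h0⟩ := hC d N B b hd hb
  choose C1 hC1 h1 using fun j => hC d N B (mc j b) hd (s1 j)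
  obtain ⟨C2, hC2, h2⟩ := hC d N B (mn b) hd s2
  have hs : 0 ≤ ∑ j, C1 j := Finset.sum_nonneg fun j _ => hC1 j
  have hpi : 0 < Real.pi := Real.pi_pos
  refine ⟨C0 + 2 * Real.pi * (∑ j, C1 j + C2), fun x => ?_, fun x => ?_⟩
  · have hi : 0 ≤ ((1 + ‖x‖) ^ N)⁻¹ := by positivity
    refine (h0 x (φ x) (hB x)).trans (mul_le_mul_of_nonneg_right ?_ hi)
    have : 0 ≤ 2 * Real.pi * (∑ j, C1 j + C2) := by positivity
    linarith
  · have hi : 0 ≤ ((1 + ‖x‖) ^ N)⁻¹ := by positivity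
    have h3 : 2 * Real.pi * (∑ j, C1 j + C2) * ((1 + ‖x‖) ^ N)⁻¹ ≤
        (C0 + 2 * Real.pi * (∑ j, C1 j + C2)) * ((1 + ‖x‖) ^ N)⁻¹ :=
      mul_le_mul_of_nonneg_right (by linarith) hi
    refine le_trans ?_ h3
    refine ContinuousLinearMap.opNorm_le_bound _ (by positivity) fun v => ?_
    rw [(onG_deriv hD hb hφ).2 x v, norm_mul]
    have e1 : ‖(2 * (Real.pi : ℂ) * Complex.I : ℂ)‖ = 2 * Real.pi := by
      rw [norm_mul, norm_mul, Complex.norm_I, Complex.norm_real, Real.norm_eq_abs,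
        abs_of_pos hpi]
      simp
    rw [e1]
    have e2 : ‖∑ j, ((v j : ℝ) : ℂ) * U (mc j b) (x, φ x)‖ ≤
        ∑ j, ‖v‖ * (C1 j * ((1 + ‖x‖) ^ N)⁻¹) := by
      refine (norm_sum_le _ _).trans (Finset.sum_le_sum fun j _ => ?_)
      rw [norm_mul, Complex.norm_real, Real.norm_eq_abs]
      exact mul_le_mul (abs_coord_le v j) (h1 j x (φ x) (hB x)) (norm_nonneg _) (norm_nonneg _)
    have e3 : ‖((fderiv ℝ φ x v : ℝ) : ℂ) * U (mn b) (x, φ x)‖ ≤
        ‖v‖ * (C2 * ((1 + ‖x‖) ^ N)⁻¹) := by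
      rw [norm_mul, Complex.norm_real]
      refine mul_le_mul ?_ (h2 x (φ x) (hB x)) (norm_nonneg _) (norm_nonneg _)
      calc ‖fderiv ℝ φ x v‖ ≤ ‖fderiv ℝ φ x‖ * ‖v‖ := ContinuousLinearMap.le_opNorm _ _
        _ ≤ 1 * ‖v‖ := mul_le_mul_of_nonneg_right (hL x) (norm_nonneg _)
        _ = ‖v‖ := one_mul _
    have e4 := (norm_add_le _ _).trans (add_le_add e2 e3)
    calc 2 * Real.pi * ‖∑ j, ((v j : ℝ) : ℂ) * U (mc j b) (x, φ x) +
          ((fderiv ℝ φ x v : ℝ) : ℂ) * U (mn b) (x, φ x)‖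
        ≤ 2 * Real.pi * (∑ j, ‖v‖ * (C1 j * ((1 + ‖x‖) ^ N)⁻¹) +
            ‖v‖ * (C2 * ((1 + ‖x‖) ^ N)⁻¹)) :=
          mul_le_mul_of_nonneg_left e4 (by positivity)
      _ = 2 * Real.pi * (∑ j, C1 j + C2) * ((1 + ‖x‖) ^ N)⁻¹ * ‖v‖ := by
          rw [← Finset.mul_sum, ← Finset.sum_mul]
          ring

theorem gr_continuous {d : ℕ} {H : EE d → ℂ} (hH : ContDiff ℝ 1 H) : Continuous (gr H) := by
  unfold gr
  refine continuous_finsetSum _ fun j _ => ?_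
  exact (((hH.continuous_fderiv (by norm_num)).clm_apply continuous_const).norm).pow 2

theorem pf_FLX (hS : T_SYM) (hD : T_DIF) (hC : T_DEC) (hF : T_FLB) (hH : T_HRD)
    (hA : T_APX) : T_FLX := by
  intro d b hd hb
  have hd1 : 1 ≤ d := by omega
  obtain ⟨φ, a1, a2, a3, a4, a5, a6, -⟩ := hA d
  obtain ⟨s1, s2, -⟩ := hS d b hb
  have hA1 : ∀ n, ∫⁻ x, ENNReal.ofReal (gr (onG b (φ n)) x) ≤
      ENNReal.ofReal (8 * Real.pi ^ 2) * ∫⁻ ξ, ‖mn b ξ‖ₑ ^ 2 := by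
    intro n
    obtain ⟨B, hB⟩ := a2 n
    exact hF d b (φ n) B hd1 hb (a1 n) hB (a3 n)
  have hB1 : ∀ n, ENNReal.ofReal (((d : ℝ) - 2) ^ 2 / 4) *
      ∫⁻ x, ‖onG b (φ n) x‖ₑ ^ 2 * wt x ≤
      ENNReal.ofReal (8 * Real.pi ^ 2) * ∫⁻ ξ, ‖mn b ξ‖ₑ ^ 2 := by
    intro n
    obtain ⟨B, hB⟩ := a2 n
    obtain ⟨C, c1, c2⟩ := onG_deriv_bound hS hD hC hd1 hb (a1 n) hB (a3 n) (d + 2)
    exact (hH d (onG b (φ n)) C hd (onG_deriv hD hb (a1 n)).1 c1 c2).trans (hA1 n)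
  have hUc : ∀ c : EE d → ℂ, Sym c → ∀ x, Filter.Tendsto (fun n => U c (x, φ n x)) Filter.atTop
      (nhds (U c (x, hy x))) := by
    intro c hc x
    have h1 : Continuous (U c) := (hD d c hc).1.continuous
    exact (h1.tendsto (x, hy x)).comp (tendsto_const_nhds.prodMk_nhds (a4 x))
  have hgl : ∀ x, Filter.Tendsto (fun n => gr (onG b (φ n)) x) Filter.atTop
      (nhds (gr (onG b hy) x)) := by
    intro x
    unfold gr
    refine tendsto_finsetSum _ fun j _ => ?_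
    refine ((Filter.Tendsto.norm ?_).pow 2)
    have e1 : (fun n => fderiv ℝ (onG b (φ n)) x (ei j)) = fun n =>
        2 * (Real.pi : ℂ) * Complex.I * (U (mc j b) (x, φ n x) +
          ((fderiv ℝ (φ n) x (ei j) : ℝ) : ℂ) * U (mn b) (x, φ n x)) := by
      funext n
      exact onG_deriv_ei hD hb (a1 n) x j
    rw [e1, onG_deriv_ei hD hb a6 x j]
    refine Filter.Tendsto.const_mul _ ((hUc _ (s1 j) x).add ?_)
    exact ((Complex.continuous_ofReal.tendsto _).comp (a5 x j)).mul (hUc _ s2 x)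
  have hwm : Measurable (wt (d := d)) := by
    unfold wt
    refine ENNReal.measurable_ofReal.comp ?_
    exact Continuous.measurable (continuous_const.div (by fun_prop)
      (fun x => by positivity))
  constructor
  · refine fatou (fun n => ?_) (fun x => ?_) hA1
    · exact ENNReal.measurable_ofReal.comp (gr_continuous (onG_deriv hD hb (a1 n)).1).measurable
    · exact ENNReal.tendsto_ofReal (hgl x)
  · have hm : ∀ n, Measurable fun x => ‖onG b (φ n) x‖ₑ ^ 2 * wt x := fun n =>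
      ((onG_deriv hD hb (a1 n)).1.continuous.measurable.enorm.pow_const 2).mul hwm
    have hmh : Measurable fun x => ‖onG b hy x‖ₑ ^ 2 * wt x :=
      ((onG_deriv hD hb a6).1.continuous.measurable.enorm.pow_const 2).mul hwm
    rw [← lintegral_const_mul _ hmh]
    refine fatou (f := fun n x => ENNReal.ofReal (((d : ℝ) - 2) ^ 2 / 4) *
      (‖onG b (φ n) x‖ₑ ^ 2 * wt x)) (fun n => (hm n).const_mul _) (fun x => ?_) (fun n => ?_)
    · refine ENNReal.Tendsto.const_mul ?_ (Or.inr ENNReal.ofReal_ne_top)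
      refine ENNReal.Tendsto.mul_const ?_ (Or.inr ?_)
      · have h1 : Filter.Tendsto (fun n => onG b (φ n) x) Filter.atTop (nhds (onG b hy x)) :=
          hUc b hb x
        exact ENNReal.Tendsto.pow h1.enorm
      · unfold wt
        exact ENNReal.ofReal_ne_top
    · rw [lintegral_const_mul _ (hm n)]
      exact hB1 n

end Pool.Agent.H79.C1
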